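import Pool.Agent.Helper83_DPB.Stmts

/-!
Squad DPB (MP_e2cf1f_an): modules TAIL, DISJ, DOM, ROS on finitely additive set functions.
-/

open Filter Topology Set

namespace Pool.Agent.Helper83_DPB.H18

variable {Ω : Type} {B : Set (Set Ω)}

theorem alg_inter (hB : IsAlg B) {b c : Set Ω} (hb : b ∈ B) (hc : c ∈ B) : b ∩ c ∈ B := by
  have := hB.compl _ (hB.union _ (hB.compl _ hb) _ (hB.compl _ hc))
  rwa [compl_union, compl_compl, compl_compl] at this

theorem alg_diff (hB : IsAlg B) {b c : Set Ω} (hb : b ∈ B) (hc : c ∈ B) : b \ c ∈ B :=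
  alg_inter hB hb (hB.compl _ hc)

theorem alg_univ (hB : IsAlg B) : (univ : Set Ω) ∈ B := by
  have := hB.compl _ hB.empty
  rwa [compl_empty] at this

theorem alg_biUnion (hB : IsAlg B) {ι : Type} (F : Finset ι) (b : ι → Set Ω)
    (hb : ∀ k ∈ F, b k ∈ B) : (⋃ k ∈ F, b k) ∈ B := by
  classical
  induction F using Finset.induction_on with
  | empty => simpa using hB.empty
  | insert a s ha ih =>
    rw [Finset.set_biUnion_insert]
    exact hB.union _ (hb _ (Finset.mem_insert_self _ _)) _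
      (ih fun k hk => hb k (Finset.mem_insert_of_mem hk))

theorem chg_empty (hB : IsAlg B) {v : Set Ω → ℝ} (hv : IsChg B v) : v ∅ = 0 := by
  have := hv.add _ hB.empty _ hB.empty (disjoint_empty _)
  rw [union_empty] at this
  linarith

theorem chg_diff (hB : IsAlg B) {v : Set Ω → ℝ} (hv : IsChg B v) {b c : Set Ω} (hb : b ∈ B)
    (hc : c ∈ B) (h : b ⊆ c) : v c = v b + v (c \ b) := by
  have := hv.add _ hb _ (alg_diff hB hc hb) disjoint_sdiff_right
  rwa [union_sdiff_cancel h] at this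

theorem chg_mono (hB : IsAlg B) {v : Set Ω → ℝ} (hv : IsChg B v) {b c : Set Ω} (hb : b ∈ B)
    (hc : c ∈ B) (h : b ⊆ c) : v b ≤ v c := by
  rw [chg_diff hB hv hb hc h]
  have := hv.nonneg _ (alg_diff hB hc hb)
  linarith

theorem chg_union_le (hB : IsAlg B) {v : Set Ω → ℝ} (hv : IsChg B v) {b c : Set Ω} (hb : b ∈ B)
    (hc : c ∈ B) : v (b ∪ c) ≤ v b + v c := by
  have h1 : v (b ∪ c) = v b + v (c \ b) := by
    have := hv.add _ hb _ (alg_diff hB hc hb) disjoint_sdiff_right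
    rwa [union_sdiff_self] at this
  have h2 := chg_mono hB hv (alg_diff hB hc hb) hc sdiff_subset
  linarith

theorem chg_biUnion_le (hB : IsAlg B) {v : Set Ω → ℝ} (hv : IsChg B v) {ι : Type} (F : Finset ι)
    (b : ι → Set Ω) (hb : ∀ k ∈ F, b k ∈ B) : v (⋃ k ∈ F, b k) ≤ ∑ k ∈ F, v (b k) := by
  classical
  induction F using Finset.induction_on with
  | empty => simp [chg_empty hB hv]
  | insert a s ha ih =>
    rw [Finset.set_biUnion_insert, Finset.sum_insert ha]
    have hs : ∀ k ∈ s, b k ∈ B := fun k hk => hb k (Finset.mem_insert_of_mem hk)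
    have h1 := chg_union_le hB hv (hb _ (Finset.mem_insert_self _ _)) (alg_biUnion hB s b hs)
    have h2 := ih hs
    linarith

theorem chg_biUnion (hB : IsAlg B) {v : Set Ω → ℝ} (hv : IsChg B v) {ι : Type} (F : Finset ι)
    (b : ι → Set Ω) (hb : ∀ k ∈ F, b k ∈ B)
    (hd : ∀ i ∈ F, ∀ j ∈ F, i ≠ j → Disjoint (b i) (b j)) :
    v (⋃ k ∈ F, b k) = ∑ k ∈ F, v (b k) := by
  classical
  induction F using Finset.induction_on with
  | empty => simp [chg_empty hB hv]
  | insert a s ha ih =>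
    have hs : ∀ k ∈ s, b k ∈ B := fun k hk => hb k (Finset.mem_insert_of_mem hk)
    rw [Finset.set_biUnion_insert, Finset.sum_insert ha,
      hv.add _ (hb _ (Finset.mem_insert_self _ _)) _ (alg_biUnion hB s b hs), ih hs]
    · intro i hi j hj hij
      exact hd i (Finset.mem_insert_of_mem hi) j (Finset.mem_insert_of_mem hj) hij
    · rw [disjoint_iUnion₂_right]
      intro i hi
      exact hd a (Finset.mem_insert_self _ _) i (Finset.mem_insert_of_mem hi)
        (fun h => ha (h ▸ hi))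

theorem chg_sum_le (hB : IsAlg B) {v : Set Ω → ℝ} (hv : IsChg B v) {ι : Type} (F : Finset ι)
    (b : ι → Set Ω) (hb : ∀ k ∈ F, b k ∈ B)
    (hd : ∀ i ∈ F, ∀ j ∈ F, i ≠ j → Disjoint (b i) (b j)) :
    ∑ k ∈ F, v (b k) ≤ v univ := by
  rw [← chg_biUnion hB hv F b hb hd]
  exact chg_mono hB hv (alg_biUnion hB F b hb) (alg_univ hB) (subset_univ _)

/-- TAIL -/
theorem tail : TailStmt := by
  intro Ω B hB v hv b hb hd ε hε
  have hs : Summable fun k => v (b k) := by
    refine summable_of_sum_le (fun k => hv.nonneg _ (hb k)) (c := v univ) fun F => ?_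
    exact chg_sum_le hB hv F b (fun k _ => hb k) (fun i _ j _ hij => hd i j hij)
  obtain ⟨s, hs'⟩ := summable_iff_vanishing_norm.1 hs ε hε
  refine ⟨s.sup id + 1, fun F hF => ?_⟩
  have hdis : Disjoint F s := by
    rw [Finset.disjoint_left]
    intro k hk hks
    have h1 := hF k hk
    have h2 : k ≤ s.sup id := Finset.le_sup (f := id) hks
    omega
  have := hs' F hdis
  exact (le_abs_self _).trans this.le

/-- limit charge along an ultrafilter -/
theorem exists_limit (hB : IsAlg B) (U : Ultrafilter ℕ) (v : ℕ → Set Ω → ℝ) (C : ℝ)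
    (hv : ∀ k, IsChg B (v k)) (hC : ∀ k, v k univ ≤ C) :
    ∃ F : Set Ω → ℝ, (∀ b ∈ B, Tendsto (fun l => v l b) U (𝓝 (F b))) ∧ IsChg B F ∧
      F univ ≤ C := by
  have h1 : ∀ b : Set Ω, ∃ z : ℝ, b ∈ B → Tendsto (fun l => v l b) U (𝓝 z) := by
    intro b
    by_cases hb : b ∈ B
    · have hc : IsCompact (Icc (0 : ℝ) C) := isCompact_Icc
      have h : ((U.map fun l => v l b : Ultrafilter ℝ) : Filter ℝ) ≤ 𝓟 (Icc 0 C) := by
        rw [le_principal_iff]
        change (fun l => v l b) ⁻¹' (Icc 0 C) ∈ U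
        refine Filter.univ_mem' fun l => ⟨(hv l).nonneg _ hb, ?_⟩
        exact (chg_mono hB (hv l) hb (alg_univ hB) (subset_univ _)).trans (hC l)
      obtain ⟨z, -, hz⟩ := hc.ultrafilter_le_nhds _ h
      exact ⟨z, fun _ => hz⟩
    · exact ⟨0, fun h => absurd h hb⟩
  choose F hF using h1
  refine ⟨F, fun b hb => hF b hb, ⟨fun b hb => ?_, fun b hb c hc hbc => ?_⟩, ?_⟩
  · exact ge_of_tendsto (hF b hb) (Filter.Eventually.of_forall fun l => (hv l).nonneg _ hb)
  · refine tendsto_nhds_unique (hF _ (hB.union _ hb _ hc)) ?_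
    have := (hF b hb).add (hF c hc)
    refine this.congr fun l => ?_
    exact ((hv l).add _ hb _ hc hbc).symm
  · exact le_of_tendsto (hF _ (alg_univ hB)) (Filter.Eventually.of_forall hC)

theorem sum_half_le (F : Finset ℕ) (f : ℕ → ℕ) (hf : ∀ i, i ≤ f i) (ε : ℝ) (hε : 0 ≤ ε) :
    ∑ j ∈ F, ε * (1 / 2) ^ (f j + 3) ≤ ε / 4 := by
  have h1 : ∀ j ∈ F, ε * (1 / 2 : ℝ) ^ (f j + 3) ≤ ε / 8 * (1 / 2) ^ j := by
    intro j _
    have h2 : ((1 : ℝ) / 2) ^ (f j) ≤ (1 / 2) ^ j :=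
      pow_le_pow_of_le_one (by norm_num) (by norm_num) (hf j)
    rw [pow_add]
    nlinarith
  refine (Finset.sum_le_sum h1).trans ?_
  rw [← Finset.mul_sum]
  have h3 : ∑ j ∈ F, ((1 : ℝ) / 2) ^ j ≤ 2 :=
    (summable_geometric_two.sum_le_tsum F (fun i _ => by positivity)).trans_eq tsum_geometric_two
  nlinarith

/-- truncated sets -/
def tb (b : ℕ → Set Ω) (k N : ℕ) : Set Ω := b k \ ⋃ j ∈ Finset.Ioc k N, b j

theorem tb_mem (hB : IsAlg B) {b : ℕ → Set Ω} (hb : ∀ k, b k ∈ B) (k N : ℕ) : tb b k N ∈ B :=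
  alg_diff hB (hb k) (alg_biUnion hB _ b fun j _ => hb j)

theorem tb_sub (b : ℕ → Set Ω) (k N : ℕ) : tb b k N ⊆ b k := sdiff_subset

theorem tb_disj (b : ℕ → Set Ω) {k l N : ℕ} (h : k < l) (hl : l ≤ N) :
    Disjoint (tb b k N) (tb b l N) := by
  rw [Set.disjoint_left]
  intro x hx hy
  refine hx.2 ?_
  rw [mem_iUnion₂]
  exact ⟨l, Finset.mem_Ioc.2 ⟨h, hl⟩, hy.1⟩

theorem tb_anti (b : ℕ → Set Ω) {k N M : ℕ} (h : N ≤ M) : tb b k M ⊆ tb b k N := by
  intro x hx
  refine ⟨hx.1, fun h' => hx.2 ?_⟩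
  rw [mem_iUnion₂] at h' ⊢
  obtain ⟨j, hj, hx'⟩ := h'
  rw [Finset.mem_Ioc] at hj
  exact ⟨j, Finset.mem_Ioc.2 ⟨hj.1, hj.2.trans h⟩, hx'⟩

/-- DISJ -/
theorem disj : DisjStmt := by
  intro Ω B hB v C ε hε hv hC b hb hbe hbs
  obtain ⟨F, hF, hFc, hFC⟩ := exists_limit hB (hyperfilter ℕ) v C hv hC
  -- (i)
  have hi : ∀ k N, 7 * ε / 8 ≤ v k (tb b k N) := by
    intro k N
    have hU := alg_biUnion hB (Finset.Ioc k N) b fun j _ => hb j
    have h1 : v k (b k) ≤ v k (tb b k N) + v k (⋃ j ∈ Finset.Ioc k N, b j) := by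
      refine (chg_mono hB (hv k) (hb k) (hB.union _ (tb_mem hB hb k N) _ hU) ?_).trans
        (chg_union_le hB (hv k) (tb_mem hB hb k N) hU)
      intro x hx
      by_cases h : x ∈ ⋃ j ∈ Finset.Ioc k N, b j
      · exact Or.inr h
      · exact Or.inl ⟨hx, h⟩
    have h2 : v k (⋃ j ∈ Finset.Ioc k N, b j) ≤ ε / 8 := by
      refine (chg_biUnion_le hB (hv k) _ b fun j _ => hb j).trans ?_
      have h3 : ∀ j ∈ Finset.Ioc k N, v k (b j) ≤ ε / 8 * ((1 / 2) ^ j) := by
        intro j hj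
        have h4 := hbs k j (Finset.mem_Ioc.1 hj).1
        have h5 : ε * (1 / 2 : ℝ) ^ (j + 3) = ε / 8 * ((1 / 2) ^ j) := by
          rw [pow_add]; ring
        linarith
      refine (Finset.sum_le_sum h3).trans ?_
      rw [← Finset.mul_sum]
      have h6 : ∑ j ∈ Finset.Ioc k N, ((1 : ℝ) / 2) ^ j ≤ 1 := by
        have h7 : ∑ j ∈ insert 0 (Finset.Ioc k N), ((1 : ℝ) / 2) ^ j ≤ 2 :=
          (summable_geometric_two.sum_le_tsum _ (fun i _ => by positivity)).trans_eq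
            tsum_geometric_two
        rw [Finset.sum_insert (by simp)] at h7
        norm_num at h7 ⊢
        linarith
      nlinarith
    have h3 := hbe k
    linarith
  -- (ii)
  have hii : ∀ δ : ℝ, 0 < δ → {k : ℕ | ∀ N, k ≤ N → δ ≤ F (tb b k N)}.Finite := by
    intro δ hδ
    by_contra hinf
    obtain ⟨n, hn⟩ := exists_nat_gt (C / δ)
    obtain ⟨s, hs, hcard⟩ := Set.Infinite.exists_subset_card_eq hinf n
    have hle : ∀ k ∈ s, k ≤ s.sup id := fun k hk => Finset.le_sup (f := id) hk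
    have h1 : ∑ k ∈ s, F (tb b k (s.sup id)) ≤ F univ := by
      refine chg_sum_le hB hFc s _ (fun k _ => tb_mem hB hb _ _) fun i hi' j hj hij => ?_
      rcases lt_or_gt_of_ne hij with h | h
      · exact tb_disj b h (hle j hj)
      · exact (tb_disj b h (hle i hi')).symm
    have h2 : ∑ _k ∈ s, δ ≤ ∑ k ∈ s, F (tb b k (s.sup id)) :=
      Finset.sum_le_sum fun k hk => hs hk _ (hle k hk)
    rw [Finset.sum_const, hcard, nsmul_eq_mul] at h2
    rw [div_lt_iff₀ hδ] at hn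
    linarith
  obtain ⟨f, hP, hr⟩ := exists_seq_of_forall_finset_exists
    (fun x : ℕ × ℕ × ℕ => F (tb b x.2.1 x.2.2) < ε * (1 / 2) ^ (x.1 + 3))
    (fun x y : ℕ × ℕ × ℕ => x.1 < y.1 ∧ x.2.1 < y.2.1 ∧
      v y.2.1 (tb b x.2.1 x.2.2) < ε * (1 / 2) ^ (x.1 + 3)) (by
    intro s hs
    set i := s.sup (fun x => x.1) + 1 with hidef
    have e1 : ∀ᶠ l in (hyperfilter ℕ : Filter ℕ), ∀ x ∈ s,
        v l (tb b x.2.1 x.2.2) < ε * (1 / 2) ^ (x.1 + 3) := by
      rw [Finset.eventually_all]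
      intro x hx
      exact (hF _ (tb_mem hB hb _ _)).eventually (gt_mem_nhds (hs x hx))
    have e2 : ∀ᶠ l in (hyperfilter ℕ : Filter ℕ), s.sup (fun x => x.2.1) < l := by
      have : ∀ᶠ l in (atTop : Filter ℕ), s.sup (fun x => x.2.1) < l := eventually_gt_atTop _
      rw [← Nat.cofinite_eq_atTop] at this
      exact hyperfilter_le_cofinite this
    have e3 : ∀ᶠ l in (hyperfilter ℕ : Filter ℕ),
        ¬ ∀ N, l ≤ N → ε * (1 / 2) ^ (i + 3) ≤ F (tb b l N) := by
      have h := (hii (ε * (1 / 2) ^ (i + 3)) (by positivity)).compl_mem_cofinite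
      exact hyperfilter_le_cofinite h
    obtain ⟨l, h1, h2, h3⟩ := (e1.and (e2.and e3)).exists
    push Not at h3
    obtain ⟨N, hN, hN'⟩ := h3
    refine ⟨(i, l, N), hN', fun x hx => ⟨?_, ?_, h1 x hx⟩⟩
    · have : x.1 ≤ s.sup (fun x => x.1) := Finset.le_sup (f := fun x : ℕ × ℕ × ℕ => x.1) hx
      show x.1 < i
      omega
    · have : x.2.1 ≤ s.sup (fun x => x.2.1) :=
        Finset.le_sup (f := fun x : ℕ × ℕ × ℕ => x.2.1) hx
      show x.2.1 < l
      omega)
  have hmono : StrictMono fun i => (f i).1 :=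
    fun i j hij => (hr i j hij).1
  have hid : ∀ i, i ≤ (f i).1 := fun i => hmono.le_apply
  refine ⟨fun i => (f i).2.1, fun i => tb b (f i).2.1 (f i).2.2 \
    ⋃ j ∈ Finset.range i, tb b (f j).2.1 (f j).2.2, fun i j hij => (hr i j hij).2.1, ?_, ?_, ?_,
    ?_⟩
  · intro i
    exact alg_diff hB (tb_mem hB hb _ _) (alg_biUnion hB _ _ fun j _ => tb_mem hB hb _ _)
  · intro i
    exact sdiff_subset.trans (tb_sub _ _ _)
  · intro i
    show ε / 2 ≤ v (f i).2.1 (tb b (f i).2.1 (f i).2.2 \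
      ⋃ j ∈ Finset.range i, tb b (f j).2.1 (f j).2.2)
    have hU : (⋃ j ∈ Finset.range i, tb b (f j).2.1 (f j).2.2) ∈ B :=
      alg_biUnion hB _ _ fun j _ => tb_mem hB hb _ _
    have hT : tb b (f i).2.1 (f i).2.2 ∈ B := tb_mem hB hb _ _
    have h1 : v (f i).2.1 (tb b (f i).2.1 (f i).2.2) ≤
        v (f i).2.1 (tb b (f i).2.1 (f i).2.2 \
          ⋃ j ∈ Finset.range i, tb b (f j).2.1 (f j).2.2) +
        v (f i).2.1 (⋃ j ∈ Finset.range i, tb b (f j).2.1 (f j).2.2) := by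
      refine (chg_mono hB (hv _) hT (hB.union _ (alg_diff hB hT hU) _ hU) ?_).trans
        (chg_union_le hB (hv _) (alg_diff hB hT hU) hU)
      intro x hx
      by_cases h : x ∈ ⋃ j ∈ Finset.range i, tb b (f j).2.1 (f j).2.2
      · exact Or.inr h
      · exact Or.inl ⟨hx, h⟩
    have h2 : v (f i).2.1 (⋃ j ∈ Finset.range i, tb b (f j).2.1 (f j).2.2) ≤ ε / 4 := by
      refine (chg_biUnion_le hB (hv _) _ (fun j => tb b (f j).2.1 (f j).2.2)
        fun j _ => tb_mem hB hb _ _).trans ?_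
      refine le_trans (Finset.sum_le_sum fun j hj => ?_)
        (sum_half_le (Finset.range i) (fun j => (f j).1) hid ε hε.le)
      exact ((hr j i (Finset.mem_range.1 hj)).2.2).le
    have h3 := hi (f i).2.1 (f i).2.2
    linarith
  · have key : ∀ i j, i < j → Disjoint (tb b (f i).2.1 (f i).2.2 \
        ⋃ k ∈ Finset.range i, tb b (f k).2.1 (f k).2.2) (tb b (f j).2.1 (f j).2.2 \
        ⋃ k ∈ Finset.range j, tb b (f k).2.1 (f k).2.2) := by
      intro i j hij
      rw [Set.disjoint_left]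
      intro x hx hy
      refine hy.2 ?_
      rw [mem_iUnion₂]
      exact ⟨i, Finset.mem_range.2 hij, hx.1⟩
    intro i j hij
    rcases lt_or_gt_of_ne hij with h | h
    · exact key i j h
    · exact (key j i h).symm

theorem chg_sum {ι : Type} (s : Finset ι) (w : ι → Set Ω → ℝ) (hw : ∀ x ∈ s, IsChg B (w x)) :
    IsChg B (fun b => ∑ x ∈ s, w x b) := by
  refine ⟨fun b hb => Finset.sum_nonneg fun x hx => (hw x hx).nonneg _ hb,
    fun b hb c hc hbc => ?_⟩
  rw [← Finset.sum_add_distrib]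
  exact Finset.sum_congr rfl fun x hx => (hw x hx).add _ hb _ hc hbc

/-- DOM, from DISJ -/
theorem dom_of (hdisj : DisjStmt) : DomStmt := by
  intro Ω B hB G C e he hG hGC hno
  by_contra hcon
  push Not at hcon
  classical
  obtain ⟨f, hP, hr⟩ := exists_seq_of_forall_finset_exists
    (fun x : ℕ × (Set Ω → ℝ) × Set Ω => x.2.1 ∈ G ∧ x.2.2 ∈ B ∧ 2 * e ≤ x.2.1 x.2.2)
    (fun x y : ℕ × (Set Ω → ℝ) × Set Ω => x.1 < y.1 ∧
      x.2.1 y.2.2 ≤ 2 * e * (1 / 2) ^ (y.1 + 3)) (by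
    intro s hs
    set i := s.sup (fun x => x.1) + 1 with hidef
    obtain ⟨b, hb, hb1, v, hv, hv1⟩ := hcon (fun b => ∑ x ∈ s, x.2.1 b)
      (2 * e * (1 / 2) ^ (i + 3)) (chg_sum s (fun x => x.2.1) fun x hx => hG _ (hs x hx).1)
      (by positivity)
    refine ⟨(i, v, b), ⟨hv, hb, hv1⟩, fun x hx => ⟨?_, ?_⟩⟩
    · have : x.1 ≤ s.sup (fun x => x.1) :=
        Finset.le_sup (f := fun x : ℕ × (Set Ω → ℝ) × Set Ω => x.1) hx
      show x.1 < i
      omega
    · refine le_trans ?_ hb1.le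
      exact Finset.single_le_sum (f := fun x : ℕ × (Set Ω → ℝ) × Set Ω => x.2.1 b)
        (fun y hy => (hG _ (hs y hy).1).nonneg _ hb) hx)
  have hmono : StrictMono fun i => (f i).1 :=
    fun i j hij => (hr i j hij).1
  have hid : ∀ i, i ≤ (f i).1 := fun i => hmono.le_apply
  obtain ⟨κ, c, hκ, hc, hcb, hce, hcd⟩ := hdisj Ω B hB (fun k => (f k).2.1) C (2 * e)
    (by positivity) (fun k => hG _ (hP k).1) (fun k => hGC _ (hP k).1) (fun k => (f k).2.2)
    (fun k => (hP k).2.1) (fun k => (hP k).2.2) (by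
      intro j k hjk
      refine ((hr j k hjk).2).trans ?_
      have : ((1 : ℝ) / 2) ^ ((f k).1 + 3) ≤ (1 / 2) ^ (k + 3) :=
        pow_le_pow_of_le_one (by norm_num) (by norm_num) (by have := hid k; omega)
      nlinarith)
  refine hno ⟨fun i => (f (κ i)).2.1, c, fun k => (hP _).1, hc, hcd, fun k => ?_⟩
  have := hce k
  linarith

/-- DOM -/
theorem dom : DomStmt := dom_of disj

/-- ROS -/
theorem ros : RosStmt := by
  intro Ω B hB v C η hη hv hC b hb hd
  obtain ⟨F, hF, hFc, hFC⟩ := exists_limit hB (hyperfilter ℕ) v C hv hC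
  obtain ⟨f, hP, hr⟩ := exists_seq_of_forall_finset_exists
    (fun x : ℕ × ℕ => F (b x.2) < η * (1 / 2) ^ (x.1 + 3))
    (fun x y : ℕ × ℕ => x.1 < y.1 ∧ x.2 < y.2 ∧
      v y.2 (b x.2) < η * (1 / 2) ^ (x.1 + 3) ∧ v x.2 (b y.2) ≤ η * (1 / 2) ^ (y.1 + 3)) (by
    intro s hs
    set i := s.sup (fun x => x.1) + 1 with hidef
    have hcof : ∀ {p : ℕ → Prop}, (∀ᶠ l in (atTop : Filter ℕ), p l) →
        ∀ᶠ l in (hyperfilter ℕ : Filter ℕ), p l := by
      intro p hp
      rw [← Nat.cofinite_eq_atTop] at hp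
      exact hyperfilter_le_cofinite hp
    have e1 : ∀ᶠ l in (hyperfilter ℕ : Filter ℕ), ∀ x ∈ s,
        v l (b x.2) < η * (1 / 2) ^ (x.1 + 3) := by
      rw [Finset.eventually_all]
      intro x hx
      exact (hF _ (hb _)).eventually (gt_mem_nhds (hs x hx))
    have e2 : ∀ᶠ l in (hyperfilter ℕ : Filter ℕ), s.sup (fun x => x.2) < l :=
      hcof (eventually_gt_atTop _)
    have e3 : ∀ᶠ l in (hyperfilter ℕ : Filter ℕ), ∀ x ∈ s,
        v x.2 (b l) ≤ η * (1 / 2) ^ (i + 3) := by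
      rw [Finset.eventually_all]
      intro x _
      obtain ⟨k0, hk0⟩ := tail Ω B hB (v x.2) (hv _) b hb hd (η * (1 / 2) ^ (i + 3))
        (by positivity)
      refine hcof ?_
      filter_upwards [eventually_ge_atTop k0] with l hl
      have := hk0 {l} (by simpa using hl)
      simpa using this
    have e4 : ∀ᶠ l in (hyperfilter ℕ : Filter ℕ), F (b l) < η * (1 / 2) ^ (i + 3) := by
      obtain ⟨k0, hk0⟩ := tail Ω B hB F hFc b hb hd (η * (1 / 2) ^ (i + 4))
        (by positivity)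
      refine hcof ?_
      filter_upwards [eventually_ge_atTop k0] with l hl
      have := hk0 {l} (by simpa using hl)
      simp only [Finset.sum_singleton] at this
      refine this.trans_lt ?_
      rw [show i + 4 = (i + 3) + 1 from rfl, pow_succ]
      have : 0 < η * ((1 : ℝ) / 2) ^ (i + 3) := by positivity
      nlinarith
    obtain ⟨l, h1, h2, h3, h4⟩ := (e1.and (e2.and (e3.and e4))).exists
    refine ⟨(i, l), h4, fun x hx => ⟨?_, ?_, h1 x hx, h3 x hx⟩⟩
    · have : x.1 ≤ s.sup (fun x => x.1) := Finset.le_sup (f := fun x : ℕ × ℕ => x.1) hx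
      show x.1 < i
      omega
    · have : x.2 ≤ s.sup (fun x => x.2) :=
        Finset.le_sup (f := fun x : ℕ × ℕ => x.2) hx
      show x.2 < l
      omega)
  have hmono : StrictMono fun i => (f i).1 :=
    fun i j hij => (hr i j hij).1
  have hid : ∀ i, i ≤ (f i).1 := fun i => hmono.le_apply
  refine ⟨fun i => (f i).2, fun i j hij => (hr i j hij).2.1, fun i F' hF' => ?_⟩
  have h1 : ∀ j ∈ F', v (f i).2 (b (f j).2) ≤ η * (1 / 2) ^ ((f j).1 + 3) := by
    intro j hj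
    have hij : j ≠ i := fun h => hF' (h ▸ hj)
    rcases lt_or_gt_of_ne hij with h | h
    · exact (hr j i h).2.2.1.le
    · exact (hr i j h).2.2.2
  refine (Finset.sum_le_sum h1).trans ?_
  have := sum_half_le F' (fun j => (f j).1) hid η hη.le
  linarith

end Pool.Agent.Helper83_DPB.H18
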